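import Pool.Agent.H66.L.S8.W917.SC.COMP
import Pool.Agent.H66.L.S8.W699.SC.GC
import Pool.Agent.H66.L.S8.W428.SC.Push
import Pool.Agent.H66.L.S8.W683.SC.Loc
import Pool.Agent.H66.L.S8.W923.SC.NBHD
import Pool.Agent.H66.L.S8.W271.SC.Bump
import Pool.Agent.H66.L.S8.W74.SC.CL0
import Pool.Agent.H66.L.S8.W782.SC.PSI
import Pool.Agent.H66.L.S8.W597.SC.CL

/-! # Project SC: the closing criterion -/

universe u v w

namespace Pool.Agent.W564.SC

theorem t_LOC : S_LOC.{u} := Pool.Agent.W683.SC.loc Pool.Agent.W917.SC.comp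

theorem t_NBHD : S_NBHD.{u} := Pool.Agent.W923.SC.nbhd t_LOC

theorem t_CL0 : S_CL0.{u} := Pool.Agent.W74.SC.cl0 t_NBHD Pool.Agent.W271.SC.bump Pool.Agent.W428.SC.push

theorem t_CL : S_CL.{u} := Pool.Agent.W597.SC.cl t_CL0 Pool.Agent.W782.SC.psi

end Pool.Agent.W564.SC
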