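import Pool.Agent.H66.L.S8.H718R2.K5a
import Pool.Agent.H66.L.S8.H922R3.CL.Defs

/-!
# Project SC: stabilised `C^r` closing lemmas (MP_1e8d1a_an), statements of the parts

`V n = ℝⁿ`, `DiffM n N r = Diff^r(N)`, `strongTop n N r` the strong (Whitney) `C^r` topology,
`IsPer` periodic point (see `Pool/Agent/H718R2/G0.lean`).
-/

open scoped Manifold ContDiff Topology
open Filter Set Metric

universe u v w

namespace Pool.Agent.W564.SC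

open Pool.Agent.H718R2.G

/-- `x` is a nonwandering point of `f`. -/
def NonWand {X : Type*} [TopologicalSpace X] (f : X → X) (x : X) : Prop :=
  ∀ W ∈ 𝓝 x, ∃ m : ℕ, 1 ≤ m ∧ ∃ y ∈ W, f^[m] y ∈ W

/-- The conclusion of the `C^r` closing lemma at `z`: every neighbourhood of `F` in `Diff^r(N)`
contains some `G` for which `z` is periodic. -/
def Closable (n : ℕ) (N : Type*) [TopologicalSpace N] [ChartedSpace (V n) N] (r : ℕ∞)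
    (F : DiffM n N r) (z : N) : Prop :=
  ∀ U : Set (DiffM n N r), IsOpen[strongTop n N r] U → F ∈ U → ∃ G ∈ U, IsPer G z

/-- The jets of order `≤ k` of `a m` at `y m` converge to the jet of `b` at `y₀`. -/
structure JetConv {E E' : Type*} [NormedAddCommGroup E] [NormedSpace ℝ E]
    [NormedAddCommGroup E'] [NormedSpace ℝ E'] (k : ℕ) (a : ℕ → E → E') (y : ℕ → E)
    (b : E → E') (y₀ : E) : Prop where
  pt : Tendsto y atTop (𝓝 y₀)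
  smooth : ∀ᶠ m in atTop, ContDiffAt ℝ k (a m) (y m)
  smooth₀ : ContDiffAt ℝ k b y₀
  conv : ∀ j ≤ k, Tendsto (fun m => iteratedFDeriv ℝ j (a m) (y m)) atTop
    (𝓝 (iteratedFDeriv ℝ j b y₀))

/-- A chart of the smooth structure centred at `z` whose target contains the unit ball. -/
structure GoodChart (n : ℕ) (N : Type*) [TopologicalSpace N] [ChartedSpace (V n) N]
    (χ : OpenPartialHomeomorph N (V n)) (z : N) : Prop where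
  mem : χ ∈ IsManifold.maximalAtlas (𝓡 n) ∞ N
  src : z ∈ χ.source
  zero : χ z = 0
  ball : closedBall (0 : V n) 1 ⊆ χ.target

/-- Smooth maps supported in the ball of radius `1/2` with derivatives of order `≤ k` bounded by `κ`. -/
structure Small (n : ℕ) (k : ℕ) (κ : ℝ) (u : V n → V n) : Prop where
  smooth : ContDiff ℝ ∞ u
  supp : ∀ x, 1 / 2 ≤ ‖x‖ → u x = 0
  bd : ∀ j ≤ k, ∀ x, ‖iteratedFDeriv ℝ j u x‖ ≤ κ

/-- `Θ` is `id + u` in the chart `χ`, and the identity outside of its domain. -/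
def IsPush (n : ℕ) (N : Type*) [TopologicalSpace N] [ChartedSpace (V n) N] (r : ℕ∞)
    (χ : OpenPartialHomeomorph N (V n)) (u : V n → V n) (Θ : DiffM n N r) : Prop :=
  (∀ y ∈ χ.source, Θ y ∈ χ.source ∧ χ (Θ y) = χ y + u (χ y)) ∧ ∀ y ∉ χ.source, Θ y = y

/-- A family of diffeomorphisms, jointly `C^r` near the parameter `0`. -/
def IsFam (n : ℕ) (N : Type*) [TopologicalSpace N] [ChartedSpace (V n) N] (r : ℕ∞)
    {P : Type*} [NormedAddCommGroup P] [NormedSpace ℝ P] (H : P → DiffM n N r) : Prop :=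
  ∀ y : N, ContMDiffAt (𝓘(ℝ, P).prod (𝓡 n)) (𝓡 n) r (fun q : P × N => H q.1 q.2) ((0 : P), y)

/-! ### analytic parts -/

/-- COMP: composition of convergent jets. -/
def S_COMP : Prop :=
  ∀ (E E' E'' : Type) [NormedAddCommGroup E] [NormedSpace ℝ E] [NormedAddCommGroup E']
    [NormedSpace ℝ E'] [NormedAddCommGroup E''] [NormedSpace ℝ E''] (k : ℕ)
    (a : ℕ → E → E') (y : ℕ → E) (b : E → E') (y₀ : E) (a' : ℕ → E' → E'') (b' : E' → E''),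
    JetConv k a y b y₀ → JetConv k a' (fun m => a m (y m)) b' (b y₀) →
    JetConv k (fun m => a' m ∘ a m) y (b' ∘ b) y₀

/-- GC: good charts exist. -/
def S_GC : Prop :=
  ∀ (n : ℕ) (N : Type u) [TopologicalSpace N] [ChartedSpace (V n) N] [IsManifold (𝓡 n) ∞ N] (z : N),
    ∃ χ : OpenPartialHomeomorph N (V n), GoodChart n N χ z

/-- PUSH: small fields give diffeomorphisms. -/
def S_PUSH : Prop :=
  ∀ (n : ℕ) (N : Type u) [TopologicalSpace N] [T2Space N] [ChartedSpace (V n) N]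
    [IsManifold (𝓡 n) ∞ N] (r : ℕ∞) (χ : OpenPartialHomeomorph N (V n)) (z : N),
    GoodChart n N χ z → ∀ u : V n → V n, Small n 1 (1 / 2) u →
    ∃ Θ : DiffM n N r, IsPush n N r χ u Θ

/-- LOC: convergence of the jets of `Θ ∘ H s` in charts. -/
def S_LOC : Prop :=
  ∀ (n : ℕ) (N : Type u) [TopologicalSpace N] [T2Space N] [CompactSpace N]
    [ChartedSpace (V n) N] [IsManifold (𝓡 n) ∞ N] (r : ℕ∞) (P : Type) [NormedAddCommGroup P]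
    [NormedSpace ℝ P] (H : P → DiffM n N r), IsFam n N r H →
    ∀ (χ : OpenPartialHomeomorph N (V n)) (z : N), GoodChart n N χ z → ∀ k : ℕ, (k : ℕ∞) ≤ r →
    ∀ φ ψ : OpenPartialHomeomorph N (V n), φ ∈ IsManifold.maximalAtlas (𝓡 n) ∞ N →
    ψ ∈ IsManifold.maximalAtlas (𝓡 n) ∞ N →
    ∀ (x : ℕ → N) (x₀ : N), Tendsto x atTop (𝓝 x₀) → x₀ ∈ φ.source → H 0 x₀ ∈ ψ.source →
    ∀ s : ℕ → P, Tendsto s atTop (𝓝 0) →
    ∀ (u : ℕ → V n → V n) (κ : ℕ → ℝ), Tendsto κ atTop (𝓝 0) → (∀ m, Small n k (κ m) (u m)) →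
    ∀ Θ : ℕ → DiffM n N r, (∀ m, IsPush n N r χ (u m) (Θ m)) →
    (∀ᶠ m in atTop, Θ m (H (s m) (x m)) ∈ ψ.source) ∧
    ∀ j ≤ k, Tendsto
      (fun m => iteratedFDeriv ℝ j (ψ ∘ (fun y => Θ m (H (s m) y)) ∘ φ.symm) (φ (x m))) atTop
      (𝓝 (iteratedFDeriv ℝ j (ψ ∘ H 0 ∘ φ.symm) (φ x₀)))

/-- NBHD: small pushes and small parameters stay in a given neighbourhood. -/
def S_NBHD : Prop :=
  ∀ (n : ℕ) (N : Type u) [TopologicalSpace N] [T2Space N] [CompactSpace N]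
    [ChartedSpace (V n) N] [IsManifold (𝓡 n) ∞ N] (r : ℕ∞), 1 ≤ r →
    ∀ (P : Type) [NormedAddCommGroup P]
    [NormedSpace ℝ P] (H : P → DiffM n N r), IsFam n N r H →
    ∀ (χ : OpenPartialHomeomorph N (V n)) (z : N), GoodChart n N χ z →
    ∀ U : Set (DiffM n N r), IsOpen[strongTop n N r] U → H 0 ∈ U →
    ∃ k : ℕ, 1 ≤ k ∧ (k : ℕ∞) ≤ r ∧ ∃ κ : ℝ, 0 < κ ∧
      ∀ (s : P) (u : V n → V n) (Θ : DiffM n N r), ‖s‖ < κ → Small n k κ u →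
        IsPush n N r χ u Θ → (H s).trans Θ ∈ U

/-- BUMP: scaled bump functions. -/
def S_BUMP : Prop :=
  ∀ n k : ℕ, 1 ≤ k → ∃ C : ℝ, 0 < C ∧ ∀ ρ : ℝ, 0 < ρ → ρ ≤ 1 / 4 → ∀ w : V n, ‖w‖ ≤ ρ →
    ∃ u : V n → V n, Small n k (C * (‖w‖ / ρ ^ k)) u ∧ u w = -w ∧ ∀ x, 2 * ρ ≤ ‖x‖ → u x = 0

/-- CL0: closing at `z`. -/
def S_CL0 : Prop :=
  ∀ (n : ℕ) (N : Type u) [TopologicalSpace N] [T2Space N] [CompactSpace N]
    [ChartedSpace (V n) N] [IsManifold (𝓡 n) ∞ N] (r : ℕ∞), 1 ≤ r →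
    ∀ (P : Type) [NormedAddCommGroup P]
    [NormedSpace ℝ P] (H : P → DiffM n N r), IsFam n N r H →
    ∀ (χ : OpenPartialHomeomorph N (V n)) (z : N), GoodChart n N χ z →
    ∀ U : Set (DiffM n N r), IsOpen[strongTop n N r] U → H 0 ∈ U →
    ∃ k : ℕ, (k : ℕ∞) ≤ r ∧ ∃ κ : ℝ, 0 < κ ∧
      ∀ (s : P) (ρ : ℝ) (m : ℕ), ‖s‖ < κ → 0 < ρ → ρ < κ → 1 ≤ m →
        (H s)^[m] z ∈ χ.source → ‖χ ((H s)^[m] z)‖ < κ * ρ ^ k →
        (∀ i, 0 < i → i < m → (H s)^[i] z ∈ χ.source → 2 * ρ ≤ ‖χ ((H s)^[i] z)‖) →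
        ∃ G ∈ U, IsPer G z

/-- PSI: a smooth family of diffeomorphisms which are translations near `z`. -/
def S_PSI : Prop :=
  ∀ (n : ℕ) (N : Type u) [TopologicalSpace N] [T2Space N]
    [ChartedSpace (V n) N] [IsManifold (𝓡 n) ∞ N] (r : ℕ∞)
    (χ : OpenPartialHomeomorph N (V n)) (z : N), GoodChart n N χ z →
    ∃ (Ψ : V n → DiffM n N r) (κ : ℝ), 0 < κ ∧ (∀ y, Ψ 0 y = y) ∧
      ContMDiff ((𝓡 n).prod (𝓡 n)) (𝓡 n) r (fun q : V n × N => Ψ q.1 q.2) ∧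
      ContMDiff ((𝓡 n).prod (𝓡 n)) (𝓡 n) r (fun q : V n × N => (Ψ q.1).symm q.2) ∧
      ∀ x : V n, ‖x‖ < κ → ∀ y ∈ χ.source, ‖χ y‖ < 1 / 4 →
        Ψ x y ∈ χ.source ∧ χ (Ψ x y) = χ y + x

/-- CL: closing with a moved initial point. -/
def S_CL : Prop :=
  ∀ (n : ℕ) (N : Type u) [TopologicalSpace N] [T2Space N] [CompactSpace N]
    [ChartedSpace (V n) N] [IsManifold (𝓡 n) ∞ N] (r : ℕ∞), 1 ≤ r →
    ∀ (P : Type) [NormedAddCommGroup P]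
    [NormedSpace ℝ P] (H : P → DiffM n N r), IsFam n N r H →
    ∀ (χ : OpenPartialHomeomorph N (V n)) (z : N), GoodChart n N χ z →
    ∀ U : Set (DiffM n N r), IsOpen[strongTop n N r] U → H 0 ∈ U →
    ∃ k : ℕ, (k : ℕ∞) ≤ r ∧ ∃ κ : ℝ, 0 < κ ∧
      ∀ (s : P) (z' : N) (ρ : ℝ) (m : ℕ), ‖s‖ < κ → z' ∈ χ.source → ‖χ z'‖ < κ → 0 < ρ →
        ρ < κ → 1 ≤ m →
        (H s)^[m] z' ∈ χ.source → ‖χ ((H s)^[m] z') - χ z'‖ < κ * ρ ^ k →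
        (∀ i, 0 < i → i < m → (H s)^[i] z' ∈ χ.source →
          2 * ρ ≤ ‖χ ((H s)^[i] z') - χ z'‖) →
        ∃ G ∈ U, IsPer G z

/-! ### part A: products with a mixing map with periodic shadowing -/

/-- periodic shadowing property -/
def PerShadow {Y : Type*} [MetricSpace Y] (h : Y → Y) : Prop :=
  ∀ η : ℝ, 0 < η → ∃ δ : ℝ, 0 < δ ∧ ∀ (m : ℕ) (w : ℕ → Y), 1 ≤ m → w m = w 0 →
    (∀ i < m, dist (h (w i)) (w (i + 1)) < δ) →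
    ∃ p : Y, h^[m] p = p ∧ ∀ i < m, dist (h^[i] p) (w i) < η

/-- chain mixing -/
def ChainMix {Y : Type*} [MetricSpace Y] (h : Y → Y) : Prop :=
  ∀ δ : ℝ, 0 < δ → ∃ L : ℕ, ∀ m ≥ L, ∀ p q : Y, ∃ w : ℕ → Y, w 0 = p ∧ w m = q ∧
    ∀ i < m, dist (h (w i)) (w (i + 1)) < δ

/-- FLEX: periodic orbits which leave a neighbourhood of the initial point quickly and come back
only at the end of the period. -/
def S_FLEX : Prop :=
  ∀ (Y : Type w) [MetricSpace Y] [CompactSpace Y] [Nontrivial Y] (h : Y ≃ₜ Y),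
    PerShadow h → ChainMix h → ∀ (p : Y) (η : ℝ), 0 < η → ∃ (ρ : ℝ) (R : ℕ), 0 < ρ ∧
      ∀ m : ℕ, 2 * R ≤ m → ∃ p' : Y, dist p' p < η ∧ h^[m] p' = p' ∧
        ∀ i, R ≤ i → i + R ≤ m → ρ ≤ dist (h^[i] p') p'

/-- A: the closing lemma for diffeomorphisms which on an invariant compact set are topologically
conjugate to `f × h`, `f` an arbitrary homeomorphism. -/
def S_A : Prop :=
  ∀ (n : ℕ) (N : Type u) [TopologicalSpace N] [T2Space N] [CompactSpace N]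
    [ChartedSpace (V n) N] [IsManifold (𝓡 n) ∞ N] (r : ℕ∞), 1 ≤ r → ∀ F : DiffM n N r,
    ∀ (X : Type v) (Y : Type w) [MetricSpace X] [CompactSpace X] [MetricSpace Y] [CompactSpace Y]
    [Nontrivial Y] (f : X ≃ₜ X) (h : Y ≃ₜ Y), PerShadow h → ChainMix h →
    ∀ Θ : X × Y → N, Topology.IsEmbedding Θ → (∀ x y, F (Θ (x, y)) = Θ (f x, h y)) →
    ∀ (x : X) (y : Y), NonWand f x → Closable n N r F (Θ (x, y))

/-- EX1: chain mixing from dense periodic points and connectedness. -/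
def S_EX1 : Prop :=
  ∀ (Y : Type w) [MetricSpace Y] [CompactSpace Y] [PreconnectedSpace Y] (h : Y ≃ₜ Y),
    Dense {p | ∃ m : ℕ, 1 ≤ m ∧ h^[m] p = p} → ChainMix h

/-- EX2: hyperbolic automorphisms of tori `W / Λ` have periodic shadowing and are chain mixing. -/
def S_EX2 : Prop :=
  ∀ (W : Type) [NormedAddCommGroup W] [NormedSpace ℝ W] [FiniteDimensional ℝ W]
    (Λ : AddSubgroup W) [DiscreteTopology Λ] [IsClosed (Λ : Set W)],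
    (∃ C : ℝ, ∀ z : W, ∃ u ∈ Λ, ‖z - u‖ ≤ C) →
    ∀ L : W ≃L[ℝ] W, Pool.Agent.H922R3.CL.IsHypLin L → (∀ u, u ∈ Λ ↔ L u ∈ Λ) →
    ∀ h : (W ⧸ Λ) ≃ₜ (W ⧸ Λ), (∀ z : W, h (QuotientAddGroup.mk z) = QuotientAddGroup.mk (L z)) →
    PerShadow h ∧ ChainMix h

/-! ### part B: diffeomorphisms commuting with a free torus action -/

/-- A free smooth action of the torus `ℝᵏ/ℤᵏ`. -/
structure FreeTorus (k n : ℕ) (N : Type*) [TopologicalSpace N] [ChartedSpace (V n) N]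
    (R : V k → N → N) : Prop where
  smooth : ContMDiff ((𝓡 k).prod (𝓡 n)) (𝓡 n) ∞ (fun q : V k × N => R q.1 q.2)
  zero : ∀ y, R 0 y = y
  add : ∀ a b y, R (a + b) y = R a (R b y)
  free : ∀ a y, R a y = y ↔ ∀ j, ∃ m : ℤ, a j = m

/-- AD: charts adapted to a free torus action. -/
def S_AD : Prop :=
  ∀ (k n : ℕ) (N : Type u) [TopologicalSpace N] [T2Space N] [CompactSpace N]
    [ChartedSpace (V n) N] [IsManifold (𝓡 n) ∞ N] (R : V k → N → N), FreeTorus k n N R →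
    ∀ z : N, ∃ (D : ℕ) (χ : OpenPartialHomeomorph N (V n)) (e : V n ≃L[ℝ] (V k × V D)) (c : ℝ),
      D + k = n ∧ GoodChart n N χ z ∧ 0 < c ∧
      (∀ y ∈ χ.source, ∀ γ : V k, ‖e (χ y)‖ ≤ c → ‖γ‖ ≤ c →
        R γ y ∈ χ.source ∧ e (χ (R γ y)) = e (χ y) + (γ, 0)) ∧
      ∀ y ∈ χ.source, ∀ γ : V k, R γ y ∈ χ.source → ‖e (χ y)‖ ≤ c → ‖e (χ (R γ y))‖ ≤ c →
        ∃ l : V k, (∀ j, ∃ m : ℤ, l j = m) ∧ e (χ (R γ y)) = e (χ y) + (γ - l, 0)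

/-- TF: the family `F ∘ R_α`. -/
def S_TF : Prop :=
  ∀ (k n : ℕ) (N : Type u) [TopologicalSpace N] [T2Space N]
    [ChartedSpace (V n) N] [IsManifold (𝓡 n) ∞ N] (r : ℕ∞) (R : V k → N → N),
    FreeTorus k n N R → ∀ F : DiffM n N r,
    ∃ H : V k → DiffM n N r, (∀ α y, H α y = F (R α y)) ∧ H 0 = F ∧ IsFam n N r H

/-- The set of the integers `l` in `[a, a + N)` for which `c + i l / m` is `ρ`-close to an integer. -/
def Bad (m i : ℕ) (ρ c : ℝ) (a : ℤ) (N : ℕ) : Set ℤ :=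
  {l | a ≤ l ∧ l < a + N ∧ ∃ t : ℤ, |c + i * (l / m) - t| < ρ}

/-- CN1 -/
def S_CN1 : Prop :=
  ∀ (m i q N : ℕ) (ρ c : ℝ) (a : ℤ), 1 ≤ m → 1 ≤ q → 0 < ρ →
    (∀ q' : ℕ, 1 ≤ q' → q' < q → ∀ t : ℤ, 2 * ρ ≤ |(i : ℝ) * (q' / m) - t|) →
    ((Bad m i ρ c a N).ncard : ℝ) ≤ N / q + 1

/-- CN2 -/
def S_CN2 : Prop :=
  ∀ (m i q N : ℕ) (b : ℤ) (ρ c : ℝ) (a : ℤ), 1 ≤ m → 1 ≤ q → 0 < ρ → ρ ≤ 1 / 8 →
    |(i : ℝ) * (q / m) - b| < 2 * ρ → 1 ≤ N * |(i : ℝ) / m - b / q| →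
    ((Bad m i ρ c a N).ncard : ℝ) ≤ 16 * ρ * N

/-- COUNT: choice of the fibre rotation. -/
def S_COUNT : Prop :=
  ∀ k : ℕ, 3 ≤ k → ∀ ε : ℝ, 0 < ε → ε ≤ 1 → ∃ (R₀ : ℕ) (c : ℝ), 1 ≤ R₀ ∧ 0 < c ∧
    ∀ ρ : ℝ, 0 < ρ → ρ ≤ c → ∀ (m : ℕ) (I : Finset ℕ), R₀ ≤ m →
      (∀ i ∈ I, R₀ ≤ i ∧ i + R₀ ≤ m) → (∀ i ∈ I, ∀ j ∈ I, i < j → i + R₀ ≤ j) →
      (I.card : ℝ) ≤ c * ρ⁻¹ ^ k →
      ∀ (θ : Fin k → ℝ) (C : ℕ → Fin k → ℝ), ∃ l : Fin k → ℤ,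
        (∀ j, 0 ≤ (l j - θ j) / m ∧ (l j - θ j) / m ≤ ε) ∧
        ∀ i ∈ I, ∃ j, ∀ t : ℤ, ρ ≤ |C i j + i * ((l j - θ j) / m) - t|

/-- PAIR: choice of the two times. -/
def S_PAIR : Prop :=
  ∀ D k : ℕ, 1 ≤ D → ∀ c c' : ℝ, 0 < c → 0 < c' → c' ≤ 1 / 2 → ∃ C : ℝ, 0 < C ∧
    ∀ ρ : ℝ, 0 < ρ → ρ ≤ 1 → ∀ (M : ℕ) (T : Set ℕ) (s : ℕ → V D), 1 ≤ M → 0 ∈ T → M ∈ T →
      (∀ i ∈ T, ‖s i‖ < 2 * ρ) → ‖s 0‖ ≤ ρ → ‖s 0 - s M‖ ^ D ≤ C * ρ ^ (D + k) →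
      ∃ i j : ℕ, i ∈ T ∧ j ∈ T ∧ i < j ∧ j ≤ M ∧
        ‖s i - s j‖ ^ D ≤ C * (2 * ρ - ‖s i‖) ^ (D + k) ∧
        (Set.ncard {l | l ∈ T ∧ i < l ∧ l < j ∧ ‖s l - s i‖ < c' * (2 * ρ - ‖s i‖)} : ℝ) ≤
          c * (c' * (2 * ρ - ‖s i‖))⁻¹ ^ k

/-- RET: return times to small neighbourhoods of a nonperiodic torus orbit. -/
def S_RET : Prop :=
  ∀ (k n : ℕ) (N : Type u) [TopologicalSpace N] [T2Space N] [CompactSpace N]
    [ChartedSpace (V n) N] [IsManifold (𝓡 n) ∞ N] (R : V k → N → N), FreeTorus k n N R →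
    ∀ (F : N → N), Continuous F → (∀ a y, F (R a y) = R a (F y)) → ∀ z : N,
    (∀ a : ℕ, 1 ≤ a → ∀ β : V k, F^[a] z ≠ R β z) →
    ∀ χ : OpenPartialHomeomorph N (V n), GoodChart n N χ z → ∀ m : ℕ, ∃ ρ : ℝ, 0 < ρ ∧
      ∀ y ∈ χ.source, ‖χ y‖ < ρ → ∀ i, 1 ≤ i → i ≤ m → ∀ γ : V k, R γ (F^[i] y) ∈ χ.source →
        ρ ≤ ‖χ (R γ (F^[i] y))‖

/-- BP: the case of a periodic torus orbit. -/
def S_BP : Prop :=
  ∀ (k n : ℕ) (N : Type u) [TopologicalSpace N] [T2Space N] [CompactSpace N]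
    [ChartedSpace (V n) N] [IsManifold (𝓡 n) ∞ N] (r : ℕ∞), 1 ≤ r →
    ∀ R : V k → N → N, FreeTorus k n N R →
    ∀ F : DiffM n N r, (∀ a y, F (R a y) = R a (F y)) →
    ∀ (z : N) (a : ℕ) (β : V k), 1 ≤ a → F^[a] z = R β z → Closable n N r F z

/-- B: diffeomorphisms commuting with a free torus action of dimension `> (1 - 1/r) dim N`. -/
def S_B : Prop :=
  ∀ (k n : ℕ) (N : Type u) [TopologicalSpace N] [T2Space N] [CompactSpace N]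
    [ChartedSpace (V n) N] [IsManifold (𝓡 n) ∞ N] (r : ℕ), 1 ≤ r → 3 ≤ k →
    (r - 1) * n < r * k → ∀ R : V k → N → N, FreeTorus k n N R →
    ∀ F : DiffM n N (r : ℕ∞), (∀ a y, F (R a y) = R a (F y)) →
    ∀ z : N, NonWand F z → Closable n N (r : ℕ∞) F z

/-! ### part C: products with the identity of the circle -/

/-- CF: the family of fibrewise Moebius perturbations. -/
def S_CF : Prop :=
  ∀ (n : ℕ) (N : Type u) [TopologicalSpace N] [T2Space N] [CompactSpace N]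
    [ChartedSpace (V n) N] [IsManifold (𝓡 n) ∞ N] (r : ℕ∞)
    (R : V 1 → N → N), FreeTorus 1 n N R →
    ∀ a : N → ℂ, ContMDiff (𝓡 n) 𝓘(ℝ, ℂ) ∞ a → (∀ y, ‖a y‖ = 1) →
    (∀ t y, a (R t y) = Complex.exp (2 * Real.pi * Complex.I * (t 0 : ℝ)) * a y) →
    ∀ F : DiffM n N r, (∀ t y, F (R t y) = R t (F y)) → (∀ y, a (F y) = a y) →
    ∃ (H : ℂ × ℂ → DiffM n N r) (κ : ℝ), 0 < κ ∧ H 0 = F ∧ IsFam n N r H ∧
      ∀ p : ℂ × ℂ, ‖p‖ < κ → ∀ y, H p y =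
        R (EuclideanSpace.single 0 (Complex.arg (1 + p.1 + p.2 * (starRingEnd ℂ) (a y)) / Real.pi))
          (F y)

/-- MOEB: elliptic Moebius maps close to the identity, of large order `m`, for which the orbit of `1`
comes back to a fixed neighbourhood of `1` only after `m` steps. -/
def S_MOEB : Prop :=
  ∀ κ : ℝ, 0 < κ → ∃ (δ : ℝ) (M : ℕ), 0 < δ ∧ ∀ m : ℕ, M ≤ m → ∃ (p q : ℂ) (g : ℂ → ℂ),
    ‖(p, q)‖ < κ ∧
    (∀ w, g w = w * ((1 + p + q * (starRingEnd ℂ) w) /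
      (starRingEnd ℂ) (1 + p + q * (starRingEnd ℂ) w))) ∧
    g^[m] 1 = 1 ∧ ∀ i, 0 < i → i < m → δ ≤ ‖g^[i] 1 - 1‖

/-- C: products of an arbitrary diffeomorphism with the identity of the circle. -/
def S_C : Prop :=
  ∀ (n : ℕ) (N : Type u) [TopologicalSpace N] [T2Space N] [CompactSpace N]
    [ChartedSpace (V n) N] [IsManifold (𝓡 n) ∞ N] (r : ℕ∞), 1 ≤ r →
    ∀ R : V 1 → N → N, FreeTorus 1 n N R →
    ∀ a : N → ℂ, ContMDiff (𝓡 n) 𝓘(ℝ, ℂ) ∞ a → (∀ y, ‖a y‖ = 1) →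
    (∀ t y, a (R t y) = Complex.exp (2 * Real.pi * Complex.I * (t 0 : ℝ)) * a y) →
    ∀ F : DiffM n N r, (∀ t y, F (R t y) = R t (F y)) → (∀ y, a (F y) = a y) →
    ∀ z : N, NonWand F z → Closable n N r F z

end Pool.Agent.W564.SC
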